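import Pool.Agent.Q33.RS4.Main

/-!
The vote for pairs of triangulations.
-/

set_option autoImplicit false

namespace Pool.Agent.Q33.DF4

open Pool.Agent.Q33.RS4 Set Topology Filter

/-- The set of the pairs of labelled triangulations with `N₁` and `N₂` facets, of the same type as
`K₁` and `K₂`, for which `φ` fails: `E` is the relation to be of the same type, `R` is the relation
to be decided. Failing means that `φ` does not stop or gives a wrong answer, for some order of the
facets and of the vertices of each facet. -/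
def Fails (d : ℕ) (E R : List (List ℕ) → List (List ℕ) → Prop)
    (φ : List (List ℕ) × List (List ℕ) →. Bool) (K₁ K₂ : List (List ℕ)) (N₁ N₂ : ℕ) :
    Set (Finset (Finset ℕ) × Finset (Finset ℕ)) :=
  {C | ∃ L₁ L₂ : List (List ℕ), Good d N₁ N₁ L₁ ∧ Good d N₂ N₂ L₂ ∧
    C = ((L₁.map List.toFinset).toFinset, (L₂.map List.toFinset).toFinset) ∧
    E L₁ K₁ ∧ E L₂ K₂ ∧ ¬ ∃ b ∈ φ (L₁, L₂), (b = true ↔ R L₁ L₂)}

theorem fails_finite (d : ℕ) (E R : List (List ℕ) → List (List ℕ) → Prop)
    (φ : List (List ℕ) × List (List ℕ) →. Bool) (K₁ K₂ : List (List ℕ)) (N₁ N₂ : ℕ) :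
    (Fails d E R φ K₁ K₂ N₁ N₂).Finite := by
  have h : ∀ (N : ℕ) (L : List (List ℕ)), Good d N N L →
      (L.map List.toFinset).toFinset ∈
        (((Finset.range N).powerset.powerset : Finset (Finset (Finset ℕ))) :
          Set (Finset (Finset ℕ))) := by
    intro N L hL
    rw [Finset.mem_coe, Finset.mem_powerset]
    intro t ht
    rw [List.mem_toFinset, List.mem_map] at ht
    obtain ⟨σ, hσ, rfl⟩ := ht
    rw [Finset.mem_powerset]
    intro v hv
    rw [Finset.mem_range]
    exact (hL.simp σ hσ).2.2 v (by simpa using hv)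
  refine (((Finset.range N₁).powerset.powerset.finite_toSet).prod
    ((Finset.range N₂).powerset.powerset.finite_toSet)).subset ?_
  rintro C ⟨L₁, L₂, h1, h2, rfl, -⟩
  exact ⟨h N₁ L₁ h1, h N₂ L₂ h2⟩

/-- the value of the program `c` after `s` steps -/
def ev (c : Nat.Partrec.Code) (s : ℕ) (K : List (List ℕ) × List (List ℕ)) : Option Bool :=
  (Nat.Partrec.Code.evaln s c (Encodable.encode K)).bind
    (fun m => (Encodable.decode m : Option Bool))

theorem ev_prim (c : Nat.Partrec.Code) : Primrec₂ (ev c) :=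
  Primrec.option_bind (Nat.Partrec.Code.primrec_evaln.comp
    ((Primrec.fst.pair (Primrec.const c)).pair (Primrec.encode.comp Primrec.snd)))
    (Primrec.decode.comp Primrec.snd).to₂

theorem ev_mono {c : Nat.Partrec.Code} {s t : ℕ} (h : s ≤ t)
    {K : List (List ℕ) × List (List ℕ)} {b : Bool}
    (hb : ev c s K = some b) : ev c t K = some b := by
  unfold ev at hb ⊢
  rw [Option.bind_eq_some_iff] at hb ⊢
  obtain ⟨m, hm, e⟩ := hb
  exact ⟨m, Nat.Partrec.Code.evaln_mono h hm, e⟩

theorem exists_ev {φ : List (List ℕ) × List (List ℕ) →. Bool} (hφ : Partrec φ) :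
    ∃ c : Nat.Partrec.Code, ∀ K b, b ∈ φ K ↔ ∃ s, ev c s K = some b := by
  obtain ⟨c, hc⟩ := Nat.Partrec.Code.exists_code.1 hφ
  refine ⟨c, fun K b => ?_⟩
  have h1 : Nat.Partrec.Code.eval c (Encodable.encode K) = (φ K).map Encodable.encode := by
    rw [hc]
    simp only [Encodable.encodek]
    exact Part.bind_some _ _
  constructor
  · intro hb
    have h2 : Encodable.encode b ∈ Nat.Partrec.Code.eval c (Encodable.encode K) := by
      rw [h1]
      exact Part.mem_map _ hb
    obtain ⟨s, hs⟩ := Nat.Partrec.Code.evaln_complete.1 h2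
    refine ⟨s, ?_⟩
    unfold ev
    rw [Option.bind_eq_some_iff]
    exact ⟨_, hs, Encodable.encodek b⟩
  · rintro ⟨s, hs⟩
    unfold ev at hs
    rw [Option.bind_eq_some_iff] at hs
    obtain ⟨m, hm, e⟩ := hs
    have h2 := Nat.Partrec.Code.evaln_sound hm
    rw [h1, Part.mem_map_iff] at h2
    obtain ⟨b', hb', e'⟩ := h2
    rw [← e', Encodable.encodek] at e
    rw [← Option.some.inj e]
    exact hb'

/-- the number of votes for `b` after `s` steps -/
def nv (c : Nat.Partrec.Code) (b : Bool) (s : ℕ) (H : List (List (List ℕ) × List (List ℕ))) : ℕ :=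
  (H.filter (fun L => ev c s L = some b)).length

theorem nv_prim (c : Nat.Partrec.Code) (b : Bool) :
    Primrec (fun p : ℕ × List (List (List ℕ) × List (List ℕ)) => nv c b p.1 p.2) := by
  have h1 : PrimrecRel (fun (L : List (List ℕ) × List (List ℕ)) (s : ℕ) => ev c s L = some b) :=
    Primrec.eq.comp ((ev_prim c).comp Primrec.snd Primrec.fst) (Primrec.const (some b))
  exact (Primrec.list_length.comp
    ((PrimrecRel.listFilter h1).comp Primrec.snd Primrec.fst)).of_eq (fun p => by
      simp only [nv])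

/-- the decision after `s` steps -/
def dec (c : Nat.Partrec.Code) (s : ℕ) (H : List (List (List ℕ) × List (List ℕ))) : Option Bool :=
  if H.length < 2 * nv c true s H then some true else
    if H.length < 2 * nv c false s H then some false else none

theorem dec_prim (c : Nat.Partrec.Code) :
    Primrec (fun p : ℕ × List (List (List ℕ) × List (List ℕ)) => dec c p.1 p.2) := by
  have h : ∀ b, PrimrecPred (fun p : ℕ × List (List (List ℕ) × List (List ℕ)) =>
      p.2.length < 2 * nv c b p.1 p.2) := fun b =>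
    Primrec.nat_lt.comp (Primrec.list_length.comp Primrec.snd)
      (Primrec.nat_mul.comp (Primrec.const 2) (nv_prim c b))
  exact Primrec.ite (h true) (Primrec.const (some true))
    (Primrec.ite (h false) (Primrec.const (some false)) (Primrec.const none))

theorem dec_some {c : Nat.Partrec.Code} {s : ℕ} {H : List (List (List ℕ) × List (List ℕ))}
    {b : Bool} (h : dec c s H = some b) : H.length < 2 * nv c b s H := by
  unfold dec at h
  split_ifs at h with h1 h2
  · cases h
    exact h1
  · cases h
    exact h2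

theorem dec_isSome {c : Nat.Partrec.Code} {s : ℕ} {H : List (List (List ℕ) × List (List ℕ))}
    (b : Bool) (h : H.length < 2 * nv c b s H) : ∃ b', dec c s H = some b' := by
  unfold dec
  split_ifs with h1 h2
  · exact ⟨_, rfl⟩
  · exact ⟨_, rfl⟩
  · cases b
    · exact absurd h h2
    · exact absurd h h1

/-- the factor for the test -/
def fac (p : List (List ℕ) × List (List ℕ)) : ℕ :=
  2 * ((nrm p.1).length.factorial * (nrm p.2).length.factorial) + 1

theorem fac_prim : Primrec fac := by
  have h1 : Primrec (fun p : List (List ℕ) × List (List ℕ) => (nrm p.1).length.factorial) :=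
    factorial_prim.comp (Primrec.list_length.comp (nrm_prim.comp Primrec.fst))
  have h2 : Primrec (fun p : List (List ℕ) × List (List ℕ) => (nrm p.2).length.factorial) :=
    factorial_prim.comp (Primrec.list_length.comp (nrm_prim.comp Primrec.snd))
  exact Primrec.succ.comp (Primrec.nat_mul.comp (Primrec.const 2) (Primrec.nat_mul.comp h1 h2))

/-- the test for the number `k` of subdivisions -/
def test (d : ℕ) (h : List (List ℕ) × List (List ℕ) → ℕ → ℕ)
    (p : List (List ℕ) × List (List ℕ)) (k : ℕ) : Bool :=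
  (decide (bound (nrm p.1) + k ≤ (nrm p.1).length + d * k) &&
    decide (bound (nrm p.2) + k ≤ (nrm p.2).length + d * k)) &&
    (decide (h p (fac p) ≤ (nrm p.1).length + d * k) &&
      decide (h p (fac p) ≤ (nrm p.2).length + d * k))

theorem test_iff {d : ℕ} {h : List (List ℕ) × List (List ℕ) → ℕ → ℕ}
    {p : List (List ℕ) × List (List ℕ)} {k : ℕ} :
    test d h p k = true ↔ (bound (nrm p.1) + k ≤ (nrm p.1).length + d * k ∧
      bound (nrm p.2) + k ≤ (nrm p.2).length + d * k) ∧
      (h p (fac p) ≤ (nrm p.1).length + d * k ∧ h p (fac p) ≤ (nrm p.2).length + d * k) := by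
  simp [test]

theorem test_comp (d : ℕ) {h : List (List ℕ) × List (List ℕ) → ℕ → ℕ} (hh : Computable₂ h) :
    Computable₂ (test d h) := by
  have hn1 : Primrec (fun p : (List (List ℕ) × List (List ℕ)) × ℕ => nrm p.1.1) :=
    nrm_prim.comp (Primrec.fst.comp Primrec.fst)
  have hn2 : Primrec (fun p : (List (List ℕ) × List (List ℕ)) × ℕ => nrm p.1.2) :=
    nrm_prim.comp (Primrec.snd.comp Primrec.fst)
  have hs1 : Primrec (fun p : (List (List ℕ) × List (List ℕ)) × ℕ =>
      (nrm p.1.1).length + d * p.2) :=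
    Primrec.nat_add.comp (Primrec.list_length.comp hn1)
      (Primrec.nat_mul.comp (Primrec.const d) Primrec.snd)
  have hs2 : Primrec (fun p : (List (List ℕ) × List (List ℕ)) × ℕ =>
      (nrm p.1.2).length + d * p.2) :=
    Primrec.nat_add.comp (Primrec.list_length.comp hn2)
      (Primrec.nat_mul.comp (Primrec.const d) Primrec.snd)
  have hA1 : Computable (fun p : (List (List ℕ) × List (List ℕ)) × ℕ =>
      decide (bound (nrm p.1.1) + p.2 ≤ (nrm p.1.1).length + d * p.2)) :=
    (Primrec.nat_le.decide.comp (Primrec.nat_add.comp (bound_prim.comp hn1) Primrec.snd)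
      hs1).to_comp
  have hA2 : Computable (fun p : (List (List ℕ) × List (List ℕ)) × ℕ =>
      decide (bound (nrm p.1.2) + p.2 ≤ (nrm p.1.2).length + d * p.2)) :=
    (Primrec.nat_le.decide.comp (Primrec.nat_add.comp (bound_prim.comp hn2) Primrec.snd)
      hs2).to_comp
  have hG : Computable (fun p : (List (List ℕ) × List (List ℕ)) × ℕ => h p.1 (fac p.1)) :=
    hh.comp Computable.fst (fac_prim.comp Primrec.fst).to_comp
  have hB1 : Computable (fun p : (List (List ℕ) × List (List ℕ)) × ℕ =>
      decide (h p.1 (fac p.1) ≤ (nrm p.1.1).length + d * p.2)) :=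
    (Primrec.nat_le.decide.to_comp).comp hG hs1.to_comp
  have hB2 : Computable (fun p : (List (List ℕ) × List (List ℕ)) × ℕ =>
      decide (h p.1 (fac p.1) ≤ (nrm p.1.2).length + d * p.2)) :=
    (Primrec.nat_le.decide.to_comp).comp hG hs2.to_comp
  exact Primrec.and.to_comp.comp (Primrec.and.to_comp.comp hA1 hA2)
    (Primrec.and.to_comp.comp hB1 hB2)

theorem test_exists {d : ℕ} (hd : 2 ≤ d) (h : List (List ℕ) × List (List ℕ) → ℕ → ℕ)
    (p : List (List ℕ) × List (List ℕ)) : ∃ k, test d h p k = true := by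
  refine ⟨bound (nrm p.1) + bound (nrm p.2) + h p (fac p), test_iff.2 ⟨⟨?_, ?_⟩, ⟨?_, ?_⟩⟩⟩
  all_goals nlinarith

/-- all pairs of subdivisions with the right number of steps -/
def votes {d : ℕ} (hd : 2 ≤ d) (h : List (List ℕ) × List (List ℕ) → ℕ → ℕ)
    (p : List (List ℕ) × List (List ℕ)) : List (List (List ℕ) × List (List ℕ)) :=
  List.product (hist (nrm p.1) (bound (nrm p.1)) (Nat.find (test_exists hd h p)))
    (hist (nrm p.2) (bound (nrm p.2)) (Nat.find (test_exists hd h p)))

theorem product_prim : Primrec₂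
    (List.product : List (List (List ℕ)) → List (List (List ℕ)) → _) :=
  (Primrec.list_flatMap Primrec.fst
    (Primrec.list_map (Primrec.snd.comp Primrec.fst)
      ((Primrec.snd.comp Primrec.fst).pair Primrec.snd).to₂).to₂).of_eq (fun p => rfl)

theorem votes_comp {d : ℕ} (hd : 2 ≤ d) {h : List (List ℕ) × List (List ℕ) → ℕ → ℕ}
    (hh : Computable₂ h) : Computable (votes hd h) := by
  have hk := find_comp (test_comp d hh) (test_exists hd h)
  have h1 : Computable (fun p : List (List ℕ) × List (List ℕ) =>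
      hist (nrm p.1) (bound (nrm p.1)) (Nat.find (test_exists hd h p))) :=
    hist_prim.to_comp.comp ((((nrm_prim.comp Primrec.fst).pair
      (bound_prim.comp (nrm_prim.comp Primrec.fst))).to_comp).pair hk)
  have h2 : Computable (fun p : List (List ℕ) × List (List ℕ) =>
      hist (nrm p.2) (bound (nrm p.2)) (Nat.find (test_exists hd h p))) :=
    hist_prim.to_comp.comp ((((nrm_prim.comp Primrec.snd).pair
      (bound_prim.comp (nrm_prim.comp Primrec.snd))).to_comp).pair hk)
  exact product_prim.to_comp.comp h1 h2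

/-- the algorithm -/
def search {d : ℕ} (hd : 2 ≤ d) (h : List (List ℕ) × List (List ℕ) → ℕ → ℕ)
    (c : Nat.Partrec.Code) (b : Bool) (p : List (List ℕ) × List (List ℕ)) : Part Bool :=
  Nat.rfindOpt (fun s => bif decide ((nrm p.1).length * (nrm p.2).length = 0) then some b else
    dec c s (votes hd h p))

theorem search_partrec {d : ℕ} (hd : 2 ≤ d) {h : List (List ℕ) × List (List ℕ) → ℕ → ℕ}
    (hh : Computable₂ h) (c : Nat.Partrec.Code) (b : Bool) :
    Partrec (search hd h c b) := by
  have h1 : Computable (fun p : (List (List ℕ) × List (List ℕ)) × ℕ =>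
      decide ((nrm p.1.1).length * (nrm p.1.2).length = 0)) :=
    (Primrec.eq.decide.comp (Primrec.nat_mul.comp
      (Primrec.list_length.comp (nrm_prim.comp (Primrec.fst.comp Primrec.fst)))
      (Primrec.list_length.comp (nrm_prim.comp (Primrec.snd.comp Primrec.fst))))
      (Primrec.const 0)).to_comp
  have h2 : Computable (fun p : (List (List ℕ) × List (List ℕ)) × ℕ =>
      dec c p.2 (votes hd h p.1)) :=
    (dec_prim c).to_comp.comp (Computable.snd.pair ((votes_comp hd hh).comp Computable.fst))
  exact Partrec.rfindOpt (Computable.cond h1 (Computable.const (some b)) h2).to₂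

/-- Few failures can be repaired, for pairs. `A` is the promise, `E` the relation to be of the same
type, `R` the relation to be decided. -/
theorem repair_pair {d : ℕ} (hd : 2 ≤ d) (A E R : List (List ℕ) → List (List ℕ) → Prop)
    (b0 : Bool)
    (hgood : ∀ K₁ K₂, A K₁ K₂ →
      Good d (nrm K₁).length (bound (nrm K₁)) (nrm K₁) ∧
      Good d (nrm K₂).length (bound (nrm K₂)) (nrm K₂))
    (h00 : ∀ K₁ K₂, A K₁ K₂ → nrm K₁ = [] ∨ nrm K₂ = [] → (b0 = true ↔ R K₁ K₂))
    (hE : ∀ K₁ K₂, A K₁ K₂ → ∀ k,
      (∀ L ∈ hist (nrm K₁) (bound (nrm K₁)) k, E L K₁) ∧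
      (∀ L ∈ hist (nrm K₂) (bound (nrm K₂)) k, E L K₂))
    (hR : ∀ K₁ K₂ L₁ L₂, A K₁ K₂ → E L₁ K₁ → E L₂ K₂ → (R L₁ L₂ ↔ R K₁ K₂))
    (φ : List (List ℕ) × List (List ℕ) →. Bool) (hφ : Partrec φ)
    (h : List (List ℕ) × List (List ℕ) → ℕ → ℕ) (hh : Computable₂ h)
    (hw : ∀ K₁ K₂, A K₁ K₂ → ∀ q N₁ N₂, h (K₁, K₂) q ≤ N₁ → h (K₁, K₂) q ≤ N₂ →
      q * (Fails d E R φ K₁ K₂ N₁ N₂).ncard ≤ weight d N₁ * weight d N₂) :
    ∃ φ' : List (List ℕ) × List (List ℕ) →. Bool, Partrec φ' ∧ ∀ K₁ K₂, A K₁ K₂ →
      ∃ b ∈ φ' (K₁, K₂), (b = true ↔ R K₁ K₂) := by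
  classical
  obtain ⟨c, hc⟩ := exists_ev hφ
  refine ⟨search hd h c b0, search_partrec hd hh c _, fun K₁ K₂ hA => ?_⟩
  unfold search
  by_cases h0 : (nrm K₁).length * (nrm K₂).length = 0
  · refine ⟨b0, ?_, ?_⟩
    · refine (Nat.rfindOpt_mono ?_).2 ⟨0, ?_⟩
      · intro a m n _ ha
        simpa [h0] using ha
      · simp [h0]
    · refine h00 K₁ K₂ hA ?_
      rcases Nat.mul_eq_zero.1 h0 with h1 | h1
      · exact Or.inl (List.length_eq_zero_iff.1 h1)
      · exact Or.inr (List.length_eq_zero_iff.1 h1)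
  · simp only [h0, decide_false, cond_false]
    have hn1 : 0 < (nrm K₁).length := Nat.pos_of_ne_zero (fun e => h0 (by rw [e, zero_mul]))
    have hn2 : 0 < (nrm K₂).length := Nat.pos_of_ne_zero (fun e => h0 (by rw [e, mul_zero]))
    obtain ⟨hg1, hg2⟩ := hgood K₁ K₂ hA
    obtain ⟨⟨t1, t2⟩, ⟨t3, t4⟩⟩ := test_iff.1 (Nat.find_spec (test_exists hd h (K₁, K₂)))
    have hv : votes hd h (K₁, K₂) = List.product
        (hist (nrm K₁) (bound (nrm K₁)) (Nat.find (test_exists hd h (K₁, K₂))))
        (hist (nrm K₂) (bound (nrm K₂)) (Nat.find (test_exists hd h (K₁, K₂)))) := rfl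
    rw [hv]
    simp only at t1 t2 t3 t4
    set k := Nat.find (test_exists hd h (K₁, K₂)) with hk
    obtain ⟨a1, a2, a3⟩ := hist_spec (by omega : 1 ≤ d) hg1 k
    obtain ⟨b1, b2, b3⟩ := hist_spec (by omega : 1 ≤ d) hg2 k
    obtain ⟨e1, e2⟩ := hE K₁ K₂ hA k
    set H₁ := hist (nrm K₁) (bound (nrm K₁)) k with hH1
    set H₂ := hist (nrm K₂) (bound (nrm K₂)) k with hH2
    set H := List.product H₁ H₂ with hH
    have hmem : ∀ L ∈ H, L.1 ∈ H₁ ∧ L.2 ∈ H₂ := by
      rintro ⟨x, y⟩ hL
      exact List.pair_mem_product.1 hL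
    have hlen : H.length = H₁.length * H₂.length := List.length_product _ _
    have h3 := hw K₁ K₂ hA _ _ _ t3 t4
    rw [weight_add (by omega) hn1 k, weight_add (by omega) hn2 k, ← a3, ← b3] at h3
    have h6 : 0 < H.length := by
      rw [hlen, a3, b3]
      exact Nat.mul_pos (Finset.prod_pos (fun j _ => by omega))
        (Finset.prod_pos (fun j _ => by omega))
    -- less than half of the votes are wrong
    have hfew : 2 * (Fails d E R φ K₁ K₂ ((nrm K₁).length + d * k)
        ((nrm K₂).length + d * k)).ncard < H.length := by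
      refine half h6 (Nat.mul_le_mul (weight_le d (nrm K₁).length) (weight_le d (nrm K₂).length))
        (le_trans h3 (le_of_eq ?_))
      rw [hlen]
      ring
    have hgoodL : ∀ (K L : List (List ℕ)) (_ : Good d ((nrm K).length + d * k)
        (bound (nrm K) + k) L) (_ : bound (nrm K) + k ≤ (nrm K).length + d * k),
        Good d ((nrm K).length + d * k) ((nrm K).length + d * k) L := by
      rintro K L ⟨a, b, c'⟩ ht
      refine ⟨a, fun σ hσ => ?_, c'⟩
      obtain ⟨b1, b2, b3⟩ := b σ hσ
      exact ⟨b1, b2, fun v hv => by have := b3 v hv; omega⟩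
    have key : ∀ (p : List (List ℕ) × List (List ℕ) → Bool), (∀ L ∈ H, p L = true →
        ¬ ∃ b ∈ φ L, (b = true ↔ R L.1 L.2)) → 2 * (H.filter p).length < H.length := by
      intro p hp
      have c1 : (H.map (fun L => (cs L.1, cs L.2))).Nodup := by
        have hnd : H.Nodup := List.Nodup.product (List.Nodup.of_map _ a2) (List.Nodup.of_map _ b2)
        refine (List.nodup_map_iff_inj_on hnd).2 ?_
        intro x hx y hy e
        rw [Prod.mk.injEq] at e
        exact Prod.ext (List.inj_on_of_nodup_map a2 (hmem x hx).1 (hmem y hy).1 e.1)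
          (List.inj_on_of_nodup_map b2 (hmem x hx).2 (hmem y hy).2 e.2)
      have c2 : ((H.filter p).map (fun L => (cs L.1, cs L.2))).Nodup :=
        (List.Sublist.map _ List.filter_sublist).nodup c1
      have c3 : ((((H.filter p).map (fun L => (cs L.1, cs L.2))).toFinset :
          Finset (Finset (Finset ℕ) × Finset (Finset ℕ))) :
          Set (Finset (Finset ℕ) × Finset (Finset ℕ))) ⊆
          Fails d E R φ K₁ K₂ ((nrm K₁).length + d * k) ((nrm K₂).length + d * k) := by
        intro C hC
        rw [Finset.mem_coe, List.mem_toFinset, List.mem_map] at hC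
        obtain ⟨L, hL, rfl⟩ := hC
        rw [List.mem_filter] at hL
        obtain ⟨m1, m2⟩ := hmem L hL.1
        exact ⟨L.1, L.2, hgoodL K₁ _ (a1 _ m1).1 t1, hgoodL K₂ _ (b1 _ m2).1 t2, rfl,
          e1 _ m1, e2 _ m2, hp L hL.1 hL.2⟩
      have c4 := Set.ncard_le_ncard c3 (fails_finite d E R φ K₁ K₂ _ _)
      rw [Set.ncard_coe_finset, List.toFinset_card_of_nodup c2, List.length_map] at c4
      omega
    have hiff : ∀ L ∈ H, (R L.1 L.2 ↔ R K₁ K₂) := fun L hL =>
      hR K₁ K₂ L.1 L.2 hA (e1 _ (hmem L hL).1) (e2 _ (hmem L hL).2)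
    obtain ⟨bb, hbb⟩ : ∃ bb : Bool, (bb = true ↔ R K₁ K₂) :=
      ⟨decide (R K₁ K₂), by simp⟩
    refine ⟨bb, ?_, hbb⟩
    -- the search stops
    have hstop : ∃ s, ∀ L ∈ H, bb ∈ φ L → ev c s L = some bb := by
      have : ∀ l : List (List (List ℕ) × List (List ℕ)),
          ∃ s, ∀ L ∈ l, bb ∈ φ L → ev c s L = some bb := by
        intro l
        induction l with
        | nil => exact ⟨0, by simp⟩
        | cons L l ih =>
          obtain ⟨s, hs⟩ := ih
          by_cases hL : bb ∈ φ L
          · obtain ⟨s', hs'⟩ := (hc L bb).1 hL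
            refine ⟨max s s', fun L' hL' hb' => ?_⟩
            rw [List.mem_cons] at hL'
            rcases hL' with rfl | hL'
            · exact ev_mono (le_max_right _ _) hs'
            · exact ev_mono (le_max_left _ _) (hs L' hL' hb')
          · refine ⟨s, fun L' hL' hb' => ?_⟩
            rw [List.mem_cons] at hL'
            rcases hL' with rfl | hL'
            · exact absurd hb' hL
            · exact hs L' hL' hb'
      exact this H
    obtain ⟨s, hs⟩ := hstop
    have hmaj : H.length < 2 * nv c bb s H := by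
      have g1 := List.length_eq_length_filter_add (l := H) (fun L => decide (ev c s L = some bb))
      have g2 := key (fun L => !decide (ev c s L = some bb)) (by
        intro L hL hp
        rintro ⟨b, hb, hb'⟩
        rw [hiff L hL, ← hbb] at hb'
        have g3 : b = bb := by
          cases b <;> cases bb <;> simp_all
        subst g3
        have g4 := hs L hL hb
        simp [g4] at hp)
      unfold nv
      omega
    obtain ⟨b', hb'⟩ := dec_isSome bb hmaj
    have hdom : (Nat.rfindOpt (fun s => dec c s H)).Dom := Nat.rfindOpt_dom.2 ⟨s, b', hb'⟩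
    obtain ⟨s', hs'⟩ := Nat.rfindOpt_spec (Part.get_mem hdom)
    have hval : (Nat.rfindOpt (fun s => dec c s H)).get hdom = bb := by
      by_contra hne
      have g5 := dec_some hs'
      have g6 := key (fun L => decide (ev c s' L =
          some ((Nat.rfindOpt (fun s => dec c s H)).get hdom))) (by
        intro L hL hp
        rw [decide_eq_true_eq] at hp
        have g7 := (hc L _).2 ⟨s', hp⟩
        rintro ⟨b, hb, hbL⟩
        rw [hiff L hL, ← hbb] at hbL
        have g8 : b = bb := by
          cases b <;> cases bb <;> simp_all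
        exact hne ((Part.mem_unique g7 hb).trans g8))
      unfold nv at g5
      omega
    rw [← hval]
    exact Part.get_mem hdom

end Pool.Agent.Q33.DF4
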