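import Pool.Agent.Q33.DF4.Links
import Pool.Agent.Q33.DF4.Pair
import Pool.Agent.Q33.RS4.Growth

/-!
Promise problems for pairs of combinatorial manifolds.
-/

set_option autoImplicit false

namespace Pool.Agent.Q33.DF4

open Pool.Agent.Q33.RS4 Set Topology Filter

/-- `L` is a triangulation of the same type as `K`: a combinatorial manifold of dimension `d`, PL
homeomorphic and homeomorphic to `K`. -/
def SameType (d : ℕ) (L K : List (List ℕ)) : Prop :=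
  CombMfd d (cx L) ∧ PL (cx L) (cx K) ∧ Nonempty (Rz L ≃ₜ Rz K)

/-- The admissible inputs: pairs of combinatorial manifolds of dimension `d` which are
homeomorphic. -/
def Adm (d : ℕ) (K₁ K₂ : List (List ℕ)) : Prop :=
  CombMfd d (cx K₁) ∧ CombMfd d (cx K₂) ∧ Nonempty (Rz K₁ ≃ₜ Rz K₂)

theorem Rz_nil : Rz [] = ∅ := by
  ext x
  simp [Rz]

theorem Rz_of_nrm {K : List (List ℕ)} (h : nrm K = []) : Rz K = ∅ := by
  rw [← Rz_nrm, h, Rz_nil]

theorem cx_of_empty {K : List (List ℕ)} (h : Rz K = ∅) : cx K = {∅} := by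
  ext t
  rw [Set.mem_singleton_iff]
  constructor
  · rintro (rfl | ⟨σ, hσ, ht⟩)
    · rfl
    · rcases σ.toFinset.eq_empty_or_nonempty with e | ⟨v, hv⟩
      · rw [e] at ht
        exact Finset.subset_empty.1 ht
      · exfalso
        have h1 : (Pi.single v 1 : ℕ → ℝ) ∈ Rz K := by
          refine ⟨σ, hσ, fun i => ?_, fun i hi => ?_, ?_⟩
          · by_cases e : i = v
            · subst e
              simp
            · simp [Pi.single_eq_of_ne e]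
          · refine Pi.single_eq_of_ne ?_ _
            rintro rfl
            exact hi (by simpa using hv)
          · rw [Finset.sum_pi_single']
            simp only [hv, if_true]
        rw [h] at h1
        exact h1
  · rintro rfl
    exact Or.inl rfl

theorem sameType_hist {d : ℕ} (hd : 1 ≤ d) {K : List (List ℕ)} (hm : CombMfd d (cx K)) (k : ℕ) :
    ∀ L ∈ hist (nrm K) (bound (nrm K)) k, SameType d L K := by
  intro L hL
  have hg := good_nrm_comb hm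
  have hm' : CombMfd d (cx (nrm K)) := by rw [cx_nrm]; exact hm
  obtain ⟨h1, h2⟩ := hist_comb hd hg hm' k L hL
  have h3 := ((hist_spec hd hg k).1 L hL).2
  rw [cx_nrm] at h2
  rw [Rz_nrm] at h3
  exact ⟨h1, h2, h3⟩

/-- Promise problems for pairs of combinatorial manifolds: few failures can be removed. -/
theorem promise {d : ℕ} (hd : 2 ≤ d) (A R : List (List ℕ) → List (List ℕ) → Prop)
    (hA : ∀ K₁ K₂, A K₁ K₂ → CombMfd d (cx K₁) ∧ CombMfd d (cx K₂))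
    (hAR : ∀ K₁ K₂ L₁ L₂, A K₁ K₂ → SameType d L₁ K₁ → SameType d L₂ K₂ →
      A L₁ L₂ ∧ (R L₁ L₂ ↔ R K₁ K₂))
    (h0 : ∃ b : Bool, ∀ K₁ K₂, A K₁ K₂ → Rz K₁ = ∅ ∨ Rz K₂ = ∅ → (b = true ↔ R K₁ K₂)) :
    (∃ φ : List (List ℕ) × List (List ℕ) →. Bool, Partrec φ ∧ ∀ K₁ K₂, A K₁ K₂ →
      ∃ b ∈ φ (K₁, K₂), (b = true ↔ R K₁ K₂)) ↔
    ∃ (φ : List (List ℕ) × List (List ℕ) →. Bool)
      (h : List (List ℕ) × List (List ℕ) → ℕ → ℕ), Partrec φ ∧ Computable₂ h ∧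
      ∀ K₁ K₂, A K₁ K₂ → ∀ q N₁ N₂, h (K₁, K₂) q ≤ N₁ → h (K₁, K₂) q ≤ N₂ →
        q * (Fails d (SameType d) R φ K₁ K₂ N₁ N₂).ncard ≤ weight d N₁ * weight d N₂ := by
  constructor
  · rintro ⟨φ, hφ, h⟩
    refine ⟨φ, fun _ _ => 0, hφ, (Computable.const 0).to₂, fun K₁ K₂ hK q N₁ N₂ _ _ => ?_⟩
    have e : Fails d (SameType d) R φ K₁ K₂ N₁ N₂ = ∅ := by
      rw [Set.eq_empty_iff_forall_notMem]
      rintro C ⟨L₁, L₂, -, -, -, h1, h2, h3⟩
      exact h3 (h L₁ L₂ (hAR K₁ K₂ L₁ L₂ hK h1 h2).1)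
    rw [e, Set.ncard_empty, mul_zero]
    exact Nat.zero_le _
  · rintro ⟨φ, h, hφ, hh, hw⟩
    obtain ⟨b0, hb0⟩ := h0
    refine repair_pair hd A (SameType d) R b0 ?_ ?_ ?_ ?_ φ hφ h hh hw
    · intro K₁ K₂ hK
      exact ⟨good_nrm_comb (hA K₁ K₂ hK).1, good_nrm_comb (hA K₁ K₂ hK).2⟩
    · rintro K₁ K₂ hK (h1 | h1)
      · exact hb0 K₁ K₂ hK (Or.inl (Rz_of_nrm h1))
      · exact hb0 K₁ K₂ hK (Or.inr (Rz_of_nrm h1))
    · intro K₁ K₂ hK k
      exact ⟨sameType_hist (by omega) (hA K₁ K₂ hK).1 k,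
        sameType_hist (by omega) (hA K₁ K₂ hK).2 k⟩
    · intro K₁ K₂ L₁ L₂ hK h1 h2
      exact (hAR K₁ K₂ L₁ L₂ hK h1 h2).2

/-- The conditions for the problem of deciding PL homeomorphism of homeomorphic manifolds. -/
theorem adm_inv {d : ℕ} {K₁ K₂ L₁ L₂ : List (List ℕ)} (hK : Adm d K₁ K₂)
    (h1 : SameType d L₁ K₁) (h2 : SameType d L₂ K₂) :
    Adm d L₁ L₂ ∧ (PL (cx L₁) (cx L₂) ↔ PL (cx K₁) (cx K₂)) := by
  obtain ⟨-, -, ⟨e⟩⟩ := hK
  obtain ⟨a1, a2, ⟨a3⟩⟩ := h1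
  obtain ⟨b1, b2, ⟨b3⟩⟩ := h2
  refine ⟨⟨a1, b1, ⟨(a3.trans e).trans b3.symm⟩⟩, ?_, ?_⟩
  · intro h
    exact (a2.symm'.trans' h).trans' b2
  · intro h
    exact (a2.trans' h).trans' b2.symm'

theorem adm_empty {d : ℕ} {K₁ K₂ : List (List ℕ)} (hK : Adm d K₁ K₂)
    (h : Rz K₁ = ∅ ∨ Rz K₂ = ∅) : PL (cx K₁) (cx K₂) := by
  obtain ⟨-, -, ⟨e⟩⟩ := hK
  have h1 : Rz K₁ = ∅ := by
    rcases h with h | h
    · exact h
    · rw [Set.eq_empty_iff_forall_notMem]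
      intro x hx
      exact (Set.eq_empty_iff_forall_notMem.1 h) _ (e ⟨x, hx⟩).2
  have h2 : Rz K₂ = ∅ := by
    rw [Set.eq_empty_iff_forall_notMem]
    intro x hx
    exact (Set.eq_empty_iff_forall_notMem.1 h1) _ (e.symm ⟨x, hx⟩).2
  rw [cx_of_empty h1, cx_of_empty h2]
  exact PL.refl' _

/-- a computable rate for at most exponentially many failures -/
theorem rate_pair {d : ℕ} (hd : 0 < d) (c N0 : ℕ) :
    ∃ h : List (List ℕ) × List (List ℕ) → ℕ → ℕ, Computable₂ h ∧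
      ∀ K q N₁ N₂, h K q ≤ N₁ → h K q ≤ N₂ → N0 ≤ N₁ ∧ N0 ≤ N₂ ∧
        ∀ e, e ≤ c ^ (N₁ + N₂) → q * e ≤ weight d N₁ * weight d N₂ := by
  obtain ⟨A, hA⟩ := eventually_atTop.1 (growth hd (2 * c))
  refine ⟨fun _ q => max q (max A N0), ?_, fun K q N₁ N₂ h1 h2 => ?_⟩
  · exact (Primrec.nat_max.comp Primrec.snd (Primrec.const (max A N0))).to_comp
  · have a1 : q ≤ N₁ := le_trans (le_max_left _ _) h1
    have a2 : A ≤ N₁ := le_trans (le_trans (le_max_left _ _) (le_max_right _ _)) h1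
    have a3 : N0 ≤ N₁ := le_trans (le_trans (le_max_right _ _) (le_max_right _ _)) h1
    have b2 : A ≤ N₂ := le_trans (le_trans (le_max_left _ _) (le_max_right _ _)) h2
    have b3 : N0 ≤ N₂ := le_trans (le_trans (le_max_right _ _) (le_max_right _ _)) h2
    refine ⟨a3, b3, fun e he => ?_⟩
    calc q * e ≤ 2 ^ N₁ * c ^ (N₁ + N₂) :=
          Nat.mul_le_mul (le_trans a1 Nat.lt_two_pow_self.le) he
      _ ≤ (2 ^ N₁ * 2 ^ N₂) * c ^ (N₁ + N₂) :=
          Nat.mul_le_mul_right _ (Nat.le_mul_of_pos_right _ (Nat.two_pow_pos _))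
      _ = (2 * c) ^ N₁ * (2 * c) ^ N₂ := by
          rw [mul_pow, mul_pow, pow_add]
          ring
      _ ≤ _ := Nat.mul_le_mul (hA N₁ a2) (hA N₂ b2)

end Pool.Agent.Q33.DF4
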