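import Pool.Agent.Q33.DF4.PL

/-!
The subdivision of a facet of a combinatorial manifold is a combinatorial manifold.
-/

set_option autoImplicit false

namespace Pool.Agent.Q33.DF4

open Pool.Agent.Q33.RS4

theorem PL.symm' {C D : Set (Finset ℕ)} (h : PL C D) : PL D C := Relation.EqvGen.symm _ _ h

theorem PL.trans' {C D E : Set (Finset ℕ)} (h : PL C D) (h' : PL D E) : PL C E :=
  Relation.EqvGen.trans _ _ _ h h'

theorem PL.refl' (C : Set (Finset ℕ)) : PL C C := Relation.EqvGen.refl _

/-- the proper subsets of a finite set form a sphere -/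
theorem PL_boundary (s : Finset ℕ) (hne : s.Nonempty) : PL {t | t ⊂ s} (sphere s.card) := by
  classical
  have hcomplex : ∀ s : Finset ℕ, s.Nonempty → IsComplex {t | t ⊂ s} := by
    intro s hs
    refine ⟨(s.powerset.finite_toSet).subset (fun t ht => ?_), ?_, ?_⟩
    · rw [Finset.mem_coe, Finset.mem_powerset]
      exact ht.1
    · exact Finset.empty_ssubset.2 hs
    · intro t ht u hu
      exact lt_of_le_of_lt hu ht
  have hr : (Finset.range s.card).Nonempty := by
    rw [Finset.nonempty_range_iff]
    exact (Finset.card_pos.2 hne).ne'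
  -- a bijection
  let g : s ≃ Fin s.card := s.equivFin
  let e : ℕ → ℕ := fun x => if h : x ∈ s then (g ⟨x, h⟩ : ℕ) else 0
  have he : ∀ x (h : x ∈ s), e x = (g ⟨x, h⟩ : ℕ) := fun x h => dif_pos h
  have hinj : ∀ x ∈ s, ∀ y ∈ s, e x = e y → x = y := by
    intro x hx y hy h
    rw [he x hx, he y hy] at h
    have h1 := g.injective (Fin.ext h)
    exact congrArg Subtype.val h1
  have himg : s.image e = Finset.range s.card := by
    ext i
    rw [Finset.mem_image, Finset.mem_range]
    constructor
    · rintro ⟨x, hx, rfl⟩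
      rw [he x hx]
      exact (g ⟨x, hx⟩).2
    · intro hi
      refine ⟨(g.symm ⟨i, hi⟩ : ℕ), (g.symm ⟨i, hi⟩).2, ?_⟩
      rw [he _ (g.symm ⟨i, hi⟩).2]
      simp
  refine Relation.EqvGen.rel _ _ ⟨hcomplex s hne, hcomplex _ hr, Or.inr ⟨e, ?_, ?_⟩⟩
  · intro t ht u hu x hx y hy h
    exact hinj x (ht.1 hx) y (hu.1 hy) h
  · ext r
    constructor
    · intro hr'
      refine ⟨s.filter (fun x => e x ∈ r), ?_, ?_⟩
      · refine ⟨Finset.filter_subset _ _, fun h => ?_⟩
        refine hr'.2 (fun i hi => ?_)
        rw [← himg, Finset.mem_image] at hi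
        obtain ⟨x, hx, rfl⟩ := hi
        exact (Finset.mem_filter.1 (h hx)).2
      · ext i
        simp only [Finset.mem_image, Finset.mem_filter]
        constructor
        · rintro ⟨x, ⟨-, hx⟩, rfl⟩
          exact hx
        · intro hi
          have h1 := hr'.1 hi
          rw [← himg, Finset.mem_image] at h1
          obtain ⟨x, hx, rfl⟩ := h1
          exact ⟨x, ⟨hx, hi⟩, rfl⟩
    · rintro ⟨t, ht, rfl⟩
      refine ⟨?_, fun h => ?_⟩
      · rw [← himg]
        exact Finset.image_subset_image ht.1
      · refine ht.2 (fun x hx => ?_)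
        have h1 : e x ∈ t.image e := h (by rw [← himg]; exact Finset.mem_image_of_mem _ hx)
        obtain ⟨y, hy, hxy⟩ := Finset.mem_image.1 h1
        rw [← hinj y (ht.1 hy) x hx hxy]
        exact hy

/-- The link of a vertex of the subdivided simplex. -/
theorem lk_stellar {C : Set (Finset ℕ)} {s : Finset ℕ} {v u : ℕ}
    (hv : ∀ t ∈ C, v ∉ t) (hu : u ∈ s) (huv : u ≠ v) :
    lk (stellar C s v) u = stellar (lk C u) (s.erase u) v := by
  ext t
  constructor
  · rintro ⟨hut, ⟨h1, h2⟩ | ⟨t', h1, h2, h3⟩⟩
    · refine Or.inl ⟨⟨hut, h1⟩, fun h => h2 ?_⟩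
      rw [← Finset.insert_erase hu]
      exact Finset.insert_subset_insert _ h
    · have hut' : u ∈ t' := by
        have : u ∈ insert v t' := h3 ▸ Finset.mem_insert_self u t
        rw [Finset.mem_insert] at this
        rcases this with h | h
        · exact absurd h huv
        · exact h
      refine Or.inr ⟨t'.erase u, ⟨?_, ?_⟩, ?_, ?_⟩
      · rw [Finset.mem_union, not_or]
        exact ⟨Finset.notMem_erase _ _, Finset.notMem_erase _ _⟩
      · have e : insert u (t'.erase u ∪ s.erase u) = t' ∪ s := by
          ext y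
          simp only [Finset.mem_insert, Finset.mem_union, Finset.mem_erase]
          constructor
          · rintro (rfl | h | h)
            · exact Or.inl hut'
            · exact Or.inl h.2
            · exact Or.inr h.2
          · intro h
            by_cases hy : y = u
            · exact Or.inl hy
            · rcases h with h | h
              · exact Or.inr (Or.inl ⟨hy, h⟩)
              · exact Or.inr (Or.inr ⟨hy, h⟩)
        rw [e]
        exact h1
      · intro h
        refine h2 (fun y hy => ?_)
        by_cases hyu : y = u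
        · exact hyu ▸ hut'
        · exact Finset.mem_of_mem_erase (h (Finset.mem_erase.2 ⟨hyu, hy⟩))
      · have e1 : t = (insert u t).erase u := (Finset.erase_insert hut).symm
        rw [e1, h3, Finset.erase_insert_of_ne (fun h => huv h.symm)]
  · rintro (⟨⟨h1, h2⟩, h3⟩ | ⟨t', ⟨h1, h2⟩, h3, rfl⟩)
    · refine ⟨h1, Or.inl ⟨h2, fun h => h3 (fun y hy => ?_)⟩⟩
      rw [Finset.mem_erase] at hy
      have := h hy.2
      rw [Finset.mem_insert] at this
      rcases this with h4 | h4
      · exact absurd h4 hy.1
      · exact h4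
    · rw [Finset.mem_union, not_or] at h1
      refine ⟨?_, Or.inr ⟨insert u t', ?_, ?_, Finset.insert_comm _ _ _⟩⟩
      · rw [Finset.mem_insert, not_or]
        exact ⟨huv, h1.1⟩
      · have e : insert u (t' ∪ s.erase u) = insert u t' ∪ s := by
          ext y
          simp only [Finset.mem_insert, Finset.mem_union, Finset.mem_erase]
          constructor
          · rintro (h | h | h)
            · exact Or.inl (Or.inl h)
            · exact Or.inl (Or.inr h)
            · exact Or.inr h.2
          · rintro ((h | h) | h)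
            · exact Or.inl h
            · exact Or.inr (Or.inl h)
            · by_cases hy : y = u
              · exact Or.inl hy
              · exact Or.inr (Or.inr ⟨hy, h⟩)
        rw [← e]
        exact h2
      · intro h
        refine h3 (fun y hy => ?_)
        rw [Finset.mem_erase] at hy
        have := h hy.2
        rw [Finset.mem_insert] at this
        rcases this with h4 | h4
        · exact absurd h4 hy.1
        · exact h4

/-- The link of a vertex outside of the subdivided facet. -/
theorem lk_outside {C : Set (Finset ℕ)} {s : Finset ℕ} {v u : ℕ}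
    (hmax : ∀ t ∈ C, s ⊆ t → t = s) (hu : u ∉ s) (huv : u ≠ v) :
    lk (stellar C s v) u = lk C u := by
  ext t
  constructor
  · rintro ⟨hut, ⟨h1, h2⟩ | ⟨t', h1, h2, h3⟩⟩
    · exact ⟨hut, h1⟩
    · exfalso
      have : u ∈ insert v t' := h3 ▸ Finset.mem_insert_self u t
      rw [Finset.mem_insert] at this
      rcases this with h | h
      · exact huv h
      · have h4 := hmax _ h1 Finset.subset_union_right
        exact hu (h4 ▸ Finset.mem_union_left _ h)
  · rintro ⟨hut, h1⟩
    refine ⟨hut, Or.inl ⟨h1, fun h => ?_⟩⟩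
    exact hu ((hmax _ h1 h) ▸ Finset.mem_insert_self u t)

/-- The link of the new vertex. -/
theorem lk_new {C : Set (Finset ℕ)} {s : Finset ℕ} {v : ℕ} (hs : s ∈ C)
    (hv : ∀ t ∈ C, v ∉ t) (hmax : ∀ t ∈ C, s ⊆ t → t = s) :
    lk (stellar C s v) v = {t | t ⊂ s} := by
  ext t
  constructor
  · rintro ⟨hvt, ⟨h1, h2⟩ | ⟨t', h1, h2, h3⟩⟩
    · exact absurd (Finset.mem_insert_self v t) (hv _ h1)
    · have hvt' : v ∉ t' := fun h => hv _ h1 (Finset.mem_union_left _ h)
      have e : t = t' := by
        rw [← Finset.erase_insert hvt, h3, Finset.erase_insert hvt']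
      subst e
      refine ⟨?_, h2⟩
      rw [← hmax _ h1 Finset.subset_union_right]
      exact Finset.subset_union_left
  · rintro ⟨h1, h2⟩
    refine ⟨fun h => hv s hs (h1 h), Or.inr ⟨t, ?_, h2, rfl⟩⟩
    rw [Finset.union_eq_right.2 h1]
    exact hs

theorem combMfd_sub {d N B : ℕ} (hd : 1 ≤ d) {K : List (List ℕ)} (h : Good d N B K) {σ : List ℕ}
    (hσ : σ ∈ K) {v : ℕ} (hv : B ≤ v) (hm : CombMfd d (cx K)) :
    CombMfd d (cx (sub K σ v)) := by
  have hσc : σ.toFinset ∈ cx K := Or.inr ⟨σ, hσ, Finset.Subset.refl _⟩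
  have hfresh : ∀ t ∈ cx K, v ∉ t := fun t ht => not_mem_cx h hv ht
  have hmax : ∀ t ∈ cx K, σ.toFinset ⊆ t → t = σ.toFinset := fun t ht hs => facet_max h hσ ht hs
  have hcard := h.card hσ
  intro u hu
  have hIs := isComplex_lk (isComplex_cx (sub K σ v)) hu
  by_cases huv : u = v
  · subst huv
    left
    rw [cx_sub h hσ hv, lk_new hσc hfresh hmax, ← hcard]
    refine PL_boundary _ ?_
    rw [← Finset.card_pos, hcard]
    omega
  · have hu' : {u} ∈ cx K := by
      rw [cx_sub h hσ hv] at hu
      rcases hu with ⟨h1, -⟩ | ⟨t', -, -, h3⟩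
      · exact h1
      · exfalso
        have : v ∈ ({u} : Finset ℕ) := h3 ▸ Finset.mem_insert_self v t'
        rw [Finset.mem_singleton] at this
        exact huv this.symm
    have hIs' := isComplex_lk (isComplex_cx K) hu'
    by_cases hus : u ∈ σ.toFinset
    · have e := lk_stellar (C := cx K) (s := σ.toFinset) hfresh hus huv
      rw [← cx_sub h hσ hv] at e
      have hst : Step (lk (cx K) u) (lk (cx (sub K σ v)) u) := by
        refine ⟨hIs', hIs, Or.inl ⟨σ.toFinset.erase u, ?_, ?_, v, ?_, e⟩⟩
        · exact ⟨Finset.notMem_erase _ _, by rw [Finset.insert_erase hus]; exact hσc⟩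
        · rw [← Finset.card_pos]
          have := Finset.card_erase_add_one hus
          omega
        · intro t ht hvt
          exact hfresh _ ht.2 (Finset.mem_insert_of_mem hvt)
      have hPL : PL (lk (cx (sub K σ v)) u) (lk (cx K) u) := (Relation.EqvGen.rel _ _ hst).symm
      rcases hm u hu' with h1 | h1
      · exact Or.inl (hPL.trans' h1)
      · exact Or.inr (hPL.trans' h1)
    · have e := lk_outside (C := cx K) (s := σ.toFinset) (v := v) hmax hus huv
      rw [← cx_sub h hσ hv] at e
      rw [e]
      exact hm u hu'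

/-- All members of `hist` are combinatorial manifolds which are PL homeomorphic to `K`. -/
theorem hist_comb {d N M : ℕ} (hd : 1 ≤ d) {K : List (List ℕ)} (hK : Good d N M K)
    (hm : CombMfd d (cx K)) (k : ℕ) :
    ∀ L ∈ hist K M k, CombMfd d (cx L) ∧ PL (cx L) (cx K) := by
  induction k with
  | zero =>
    intro L hL
    rw [hist, List.mem_singleton] at hL
    subst hL
    exact ⟨hm, PL.refl' _⟩
  | succ k ih =>
    intro L hL
    rw [hist, List.mem_flatMap] at hL
    obtain ⟨L', hL', h⟩ := hL
    rw [List.mem_map] at h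
    obtain ⟨σ, hσ, rfl⟩ := h
    have hg := ((hist_spec hd hK k).1 L' hL').1
    obtain ⟨h1, h2⟩ := ih L' hL'
    refine ⟨combMfd_sub hd hg hσ (le_refl _) h1, ?_⟩
    exact (PL.symm' (Relation.EqvGen.rel _ _ (step_sub hg hσ (le_refl _)))).trans' h2

end Pool.Agent.Q33.DF4
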