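import Pool.Agent.Q33.RS4.Norm

/-!
Stellar equivalence (PL homeomorphism) of finite simplicial complexes, combinatorial manifolds, and
the subdivision of a facet.
-/

set_option autoImplicit false

namespace Pool.Agent.Q33.DF4

open Pool.Agent.Q33.RS4

/-- the simplicial complex spanned by the list `K` of vertex lists, as the set of its simplices
(the empty simplex is always a member) -/
def cx (K : List (List ℕ)) : Set (Finset ℕ) := {t | t = ∅ ∨ ∃ σ ∈ K, t ⊆ σ.toFinset}

/-- `C` is a finite simplicial complex, with the empty simplex. -/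
def IsComplex (C : Set (Finset ℕ)) : Prop := C.Finite ∧ ∅ ∈ C ∧ ∀ t ∈ C, ∀ u ⊆ t, u ∈ C

/-- the stellar subdivision of `C` at the simplex `s`, with the new vertex `v` -/
def stellar (C : Set (Finset ℕ)) (s : Finset ℕ) (v : ℕ) : Set (Finset ℕ) :=
  {t | t ∈ C ∧ ¬ s ⊆ t} ∪ {u | ∃ t, t ∪ s ∈ C ∧ ¬ s ⊆ t ∧ u = insert v t}

/-- `D` is a stellar subdivision of `C`, or arises from `C` by renaming the vertices. -/
def Step (C D : Set (Finset ℕ)) : Prop :=
  IsComplex C ∧ IsComplex D ∧
    ((∃ s ∈ C, s.Nonempty ∧ ∃ v, (∀ t ∈ C, v ∉ t) ∧ D = stellar C s v) ∨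
      (∃ e : ℕ → ℕ, (∀ t ∈ C, ∀ u ∈ C, ∀ x ∈ t, ∀ y ∈ u, e x = e y → x = y) ∧
        D = (fun t => t.image e) '' C))

/-- Stellar equivalence, the equivalence relation generated by stellar subdivisions and renaming the
vertices. For finite simplicial complexes this is PL homeomorphism (Alexander, Newman). -/
def PL (C D : Set (Finset ℕ)) : Prop := Relation.EqvGen Step C D

/-- the link of the vertex `v` -/
def lk (C : Set (Finset ℕ)) (v : ℕ) : Set (Finset ℕ) := {t | v ∉ t ∧ insert v t ∈ C}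

/-- the full simplex with `m` vertices, a ball of dimension `m - 1` -/
def ball (m : ℕ) : Set (Finset ℕ) := {t | t ⊆ Finset.range m}

/-- the boundary of the full simplex with `m` vertices, a sphere of dimension `m - 2` -/
def sphere (m : ℕ) : Set (Finset ℕ) := {t | t ⊂ Finset.range m}

/-- `C` is a combinatorial manifold of dimension `d`, possibly with boundary: the link of every
vertex is a PL sphere or a PL ball of dimension `d - 1`. -/
def CombMfd (d : ℕ) (C : Set (Finset ℕ)) : Prop :=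
  ∀ v, {v} ∈ C → PL (lk C v) (sphere (d + 1)) ∨ PL (lk C v) (ball d)

/-- all maximal simplices have `m` vertices -/
def Pure (m : ℕ) (C : Set (Finset ℕ)) : Prop :=
  (∀ t ∈ C, t.card ≤ m) ∧ ∀ t ∈ C, ∃ u ∈ C, t ⊆ u ∧ u.card = m

theorem isComplex_cx (K : List (List ℕ)) : IsComplex (cx K) := by
  refine ⟨?_, Or.inl rfl, ?_⟩
  · refine ((K.flatten.toFinset).powerset.finite_toSet).subset ?_
    intro t ht
    rw [Finset.mem_coe, Finset.mem_powerset]
    rcases ht with rfl | ⟨σ, hσ, ht⟩
    · exact Finset.empty_subset _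
    · intro x hx
      rw [List.mem_toFinset, List.mem_flatten]
      exact ⟨σ, hσ, by simpa using ht hx⟩
  · rintro t (rfl | ⟨σ, hσ, ht⟩) u hu
    · exact Or.inl (Finset.subset_empty.1 hu)
    · exact Or.inr ⟨σ, hσ, hu.trans ht⟩

theorem isComplex_lk {C : Set (Finset ℕ)} (hC : IsComplex C) {v : ℕ} (hv : {v} ∈ C) :
    IsComplex (lk C v) := by
  obtain ⟨h1, h2, h3⟩ := hC
  refine ⟨h1.subset (fun t ht => h3 _ ht.2 _ (Finset.subset_insert _ _)), ?_, ?_⟩
  · refine ⟨Finset.notMem_empty _, ?_⟩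
    simpa using hv
  · rintro t ⟨ht1, ht2⟩ u hu
    exact ⟨fun h => ht1 (hu h), h3 _ ht2 _ (Finset.insert_subset_insert _ hu)⟩

theorem pure_stellar {C : Set (Finset ℕ)} {s : Finset ℕ} (hs : s ∈ C) (hne : s.Nonempty) {v : ℕ}
    (hv : ∀ t ∈ C, v ∉ t) (hC : ∀ t ∈ C, ∀ u ⊆ t, u ∈ C) (m : ℕ) :
    Pure m C ↔ Pure m (stellar C s v) := by
  have hcase : ∀ t, ¬ s ⊆ t → ∃ x ∈ s, x ∉ t := fun t h => Finset.not_subset.1 h
  -- replacing a vertex of `s`
  have hrep : ∀ u ∈ C, s ⊆ u → ∀ x ∈ s, insert v (u.erase x) ∈ stellar C s v ∧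
      (insert v (u.erase x)).card = u.card := by
    intro u hu hsu x hx
    refine ⟨Or.inr ⟨u.erase x, ?_, fun h => ?_, rfl⟩, ?_⟩
    · have e : u.erase x ∪ s = u := by
        ext y
        rw [Finset.mem_union, Finset.mem_erase]
        constructor
        · rintro (h | h)
          · exact h.2
          · exact hsu h
        · intro h
          by_cases hy : y = x
          · exact Or.inr (hy ▸ hx)
          · exact Or.inl ⟨hy, h⟩
      rw [e]
      exact hu
    · exact Finset.notMem_erase x u (h hx)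
    · rw [Finset.card_insert_of_notMem (fun h => hv u hu (Finset.mem_of_mem_erase h)),
        Finset.card_erase_add_one (hsu hx)]
  constructor
  · rintro ⟨h1, h2⟩
    refine ⟨?_, ?_⟩
    · rintro t (⟨ht, -⟩ | ⟨t', ht', hs', rfl⟩)
      · exact h1 t ht
      · obtain ⟨x, hx, hxt⟩ := hcase t' hs'
        have h3 : t'.card < (t' ∪ s).card := by
          refine Finset.card_lt_card ⟨Finset.subset_union_left, fun h => hxt (h ?_)⟩
          exact Finset.mem_union_right _ hx
        have h4 := h1 _ ht'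
        have h5 := Finset.card_insert_le v t'
        omega
    · rintro t (⟨ht, hst⟩ | ⟨t', ht', hs', rfl⟩)
      · obtain ⟨u, hu, htu, hc⟩ := h2 t ht
        by_cases hsu : s ⊆ u
        · obtain ⟨x, hx, hxt⟩ := hcase t hst
          obtain ⟨h3, h4⟩ := hrep u hu hsu x hx
          refine ⟨_, h3, ?_, h4.trans hc⟩
          intro y hy
          rw [Finset.mem_insert, Finset.mem_erase]
          exact Or.inr ⟨fun e => hxt (e ▸ hy), htu hy⟩
        · exact ⟨u, Or.inl ⟨hu, hsu⟩, htu, hc⟩
      · obtain ⟨u, hu, htu, hc⟩ := h2 _ ht'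
        obtain ⟨x, hx, hxt⟩ := hcase t' hs'
        have hsu : s ⊆ u := Finset.subset_union_right.trans htu
        obtain ⟨h3, h4⟩ := hrep u hu hsu x hx
        refine ⟨_, h3, Finset.insert_subset_insert _ ?_, h4.trans hc⟩
        intro y hy
        rw [Finset.mem_erase]
        exact ⟨fun e => hxt (e ▸ hy), htu (Finset.mem_union_left _ hy)⟩
  · rintro ⟨h1, h2⟩
    have hle : ∀ t ∈ C, t.card ≤ m := by
      intro t ht
      by_cases hst : s ⊆ t
      · obtain ⟨x, hx⟩ := hne
        obtain ⟨h3, h4⟩ := hrep t ht hst x hx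
        rw [← h4]
        exact h1 _ h3
      · exact h1 t (Or.inl ⟨ht, hst⟩)
    -- a large simplex with `v` gives a large simplex of `C`
    have hbig : ∀ t' : Finset ℕ, t' ∪ s ∈ C → ¬ s ⊆ t' → (insert v t').card = m →
        (t' ∪ s).card = m := by
      intro t' ht' hs' hc
      obtain ⟨x, hx, hxt⟩ := hcase t' hs'
      have h3 : t'.card < (t' ∪ s).card := by
        refine Finset.card_lt_card ⟨Finset.subset_union_left, fun h => hxt (h ?_)⟩
        exact Finset.mem_union_right _ hx
      have h4 := hle _ ht'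
      have h5 := Finset.card_insert_le v t'
      omega
    refine ⟨hle, fun t ht => ?_⟩
    by_cases hst : s ⊆ t
    · obtain ⟨x, hx⟩ := hne
      obtain ⟨h3, -⟩ := hrep t ht hst x hx
      obtain ⟨u, hu, htu, hc⟩ := h2 _ h3
      rcases hu with ⟨hu, -⟩ | ⟨t', ht', hs', rfl⟩
      · exact absurd (htu (Finset.mem_insert_self _ _)) (hv u hu)
      · refine ⟨t' ∪ s, ht', ?_, hbig t' ht' hs' hc⟩
        intro y hy
        by_cases hyx : y = x
        · exact Finset.mem_union_right _ (hyx ▸ hx)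
        · have h6 : y ∈ insert v t' := htu (Finset.mem_insert_of_mem
            (Finset.mem_erase.2 ⟨hyx, hy⟩))
          rw [Finset.mem_insert] at h6
          rcases h6 with h6 | h6
          · exact absurd (h6 ▸ hy) (hv t ht)
          · exact Finset.mem_union_left _ h6
    · obtain ⟨u, hu, htu, hc⟩ := h2 t (Or.inl ⟨ht, hst⟩)
      rcases hu with ⟨hu, -⟩ | ⟨t', ht', hs', rfl⟩
      · exact ⟨u, hu, htu, hc⟩
      · refine ⟨t' ∪ s, ht', ?_, hbig t' ht' hs' hc⟩
        intro y hy
        have h6 : y ∈ insert v t' := htu hy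
        rw [Finset.mem_insert] at h6
        rcases h6 with h6 | h6
        · exact absurd (h6 ▸ hy) (hv t ht)
        · exact Finset.mem_union_left _ h6

theorem pure_rename {C : Set (Finset ℕ)} {e : ℕ → ℕ}
    (he : ∀ t ∈ C, ∀ u ∈ C, ∀ x ∈ t, ∀ y ∈ u, e x = e y → x = y) (m : ℕ) :
    Pure m C ↔ Pure m ((fun t => t.image e) '' C) := by
  have hcard : ∀ t ∈ C, (t.image e).card = t.card := fun t ht =>
    Finset.card_image_of_injOn (fun x hx y hy h => he t ht t ht x hx y hy h)
  constructor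
  · rintro ⟨h1, h2⟩
    refine ⟨?_, ?_⟩
    · rintro _ ⟨t, ht, rfl⟩
      exact (hcard t ht).le.trans (h1 t ht)
    · rintro _ ⟨t, ht, rfl⟩
      obtain ⟨u, hu, htu, hc⟩ := h2 t ht
      exact ⟨_, ⟨u, hu, rfl⟩, Finset.image_subset_image htu, (hcard u hu).trans hc⟩
  · rintro ⟨h1, h2⟩
    refine ⟨fun t ht => (hcard t ht).ge.trans (h1 _ ⟨t, ht, rfl⟩), fun t ht => ?_⟩
    obtain ⟨_, ⟨u, hu, rfl⟩, htu, hc⟩ := h2 _ ⟨t, ht, rfl⟩
    refine ⟨u, hu, fun x hx => ?_, (hcard u hu).symm.trans hc⟩
    have h3 : e x ∈ u.image e := htu (Finset.mem_image_of_mem _ hx)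
    obtain ⟨y, hy, hxy⟩ := Finset.mem_image.1 h3
    rw [← he u hu t ht y hy x hx hxy]
    exact hy

theorem pure_step {C D : Set (Finset ℕ)} (h : Step C D) (m : ℕ) : Pure m C ↔ Pure m D := by
  obtain ⟨hC, -, ⟨s, hs, hne, v, hv, rfl⟩ | ⟨e, he, rfl⟩⟩ := h
  · exact pure_stellar hs hne hv hC.2.2 m
  · exact pure_rename he m

theorem pure_PL {C D : Set (Finset ℕ)} (h : PL C D) (m : ℕ) : Pure m C ↔ Pure m D := by
  induction h with
  | rel _ _ h => exact pure_step h m
  | refl _ => exact Iff.rfl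
  | symm _ _ _ ih => exact ih.symm
  | trans _ _ _ _ _ ih1 ih2 => exact ih1.trans ih2

theorem pure_sphere (m : ℕ) : Pure m (sphere (m + 1)) := by
  refine ⟨?_, ?_⟩
  · intro t ht
    have h := Finset.card_lt_card ht
    rw [Finset.card_range] at h
    omega
  · intro t ht
    obtain ⟨x, hx, hxt⟩ := Finset.exists_of_ssubset ht
    refine ⟨(Finset.range (m + 1)).erase x, Finset.erase_ssubset hx, ?_, ?_⟩
    · intro y hy
      rw [Finset.mem_erase]
      exact ⟨fun e => hxt (e ▸ hy), ht.1 hy⟩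
    · rw [Finset.card_erase_of_mem hx, Finset.card_range, Nat.add_sub_cancel]

theorem pure_ball (m : ℕ) : Pure m (ball m) := by
  refine ⟨?_, ?_⟩
  · intro t ht
    have h := Finset.card_le_card ht
    rwa [Finset.card_range] at h
  · intro t ht
    exact ⟨Finset.range m, Finset.Subset.refl _, ht, Finset.card_range _⟩

theorem pure_link {d : ℕ} {C : Set (Finset ℕ)} (h : CombMfd d C) {v : ℕ} (hv : {v} ∈ C) :
    Pure d (lk C v) := by
  rcases h v hv with h | h
  · exact (pure_PL h d).2 (pure_sphere d)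
  · exact (pure_PL h d).2 (pure_ball d)

/-- The simplices of a combinatorial manifold lie in simplices with `d + 1` vertices. -/
theorem pure_of_combMfd {d : ℕ} {C : Set (Finset ℕ)} (hC : IsComplex C) (h : CombMfd d C)
    {t : Finset ℕ} (ht : t ∈ C) (hne : t.Nonempty) :
    t.card ≤ d + 1 ∧ ∃ u ∈ C, t ⊆ u ∧ u.card = d + 1 := by
  obtain ⟨v, hv⟩ := hne
  have h1 : {v} ∈ C := hC.2.2 t ht _ (Finset.singleton_subset_iff.2 hv)
  obtain ⟨h2, h3⟩ := pure_link h h1
  have h4 : t.erase v ∈ lk C v :=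
    ⟨Finset.notMem_erase v t, by rw [Finset.insert_erase hv]; exact ht⟩
  refine ⟨?_, ?_⟩
  · have h5 := h2 _ h4
    rw [← Finset.card_erase_add_one hv]
    omega
  · obtain ⟨u, hu, htu, hc⟩ := h3 _ h4
    refine ⟨insert v u, hu.2, ?_, ?_⟩
    · rw [← Finset.insert_erase hv]
      exact Finset.insert_subset_insert _ htu
    · rw [Finset.card_insert_of_notMem hu.1, hc]

theorem cx_nrm (K : List (List ℕ)) : cx (nrm K) = cx K := by
  ext t
  constructor
  · rintro (rfl | ⟨σ, hσ, ht⟩)
    · exact Or.inl rfl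
    · obtain ⟨⟨ρ, hρ, rfl⟩, -, -⟩ := mem_nrm hσ
      rw [ddf] at ht
      exact Or.inr ⟨ρ, hρ, ht⟩
  · rintro (rfl | ⟨σ, hσ, ht⟩)
    · exact Or.inl rfl
    · by_cases hne : σ = []
      · subst hne
        exact Or.inl (Finset.subset_empty.1 (by simpa using ht))
      · obtain ⟨τ, hτ, hs⟩ := nrm_cover hσ hne
        exact Or.inr ⟨τ, hτ, ht.trans hs⟩

/-- The normal form of a combinatorial manifold. -/
theorem good_nrm_comb {d : ℕ} {K : List (List ℕ)} (h : CombMfd d (cx K)) :
    Good d (nrm K).length (bound (nrm K)) (nrm K) := by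
  refine ⟨rfl, ?_, pick_nodup _⟩
  intro σ hσ
  obtain ⟨⟨ρ, hρ, e⟩, hne, hmax⟩ := mem_nrm hσ
  have hnd : σ.Nodup := e ▸ List.nodup_dedup ρ
  refine ⟨hnd, ?_, fun v hv => lt_bound hσ hv⟩
  rw [← List.toFinset_card_of_nodup hnd]
  have h1 : σ.toFinset ∈ cx K := by
    rw [← cx_nrm]
    exact Or.inr ⟨σ, hσ, Finset.Subset.refl _⟩
  have h2 : σ.toFinset.Nonempty := by
    rw [List.toFinset_nonempty_iff]
    exact hne
  obtain ⟨-, u, hu, hsu, hc⟩ := pure_of_combMfd (isComplex_cx K) h h1 h2
  rcases hu with rfl | ⟨τ, hτ, hut⟩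
  · simp at hc
  · have h3 := hmax τ hτ (hsu.trans hut)
    rw [Finset.Subset.antisymm hsu (hut.trans h3), hc]

theorem not_mem_cx {d N B : ℕ} {K : List (List ℕ)} (h : Good d N B K) {v : ℕ} (hv : B ≤ v)
    {t : Finset ℕ} (ht : t ∈ cx K) : v ∉ t := by
  rcases ht with rfl | ⟨σ, hσ, ht⟩
  · exact Finset.notMem_empty _
  · intro hm
    exact not_mem_of_le h hv (mem_cs.2 ⟨σ, hσ, rfl⟩) (ht hm)

/-- facets are maximal -/
theorem facet_max {d N B : ℕ} {K : List (List ℕ)} (h : Good d N B K) {σ : List ℕ} (hσ : σ ∈ K)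
    {t : Finset ℕ} (ht : t ∈ cx K) (hs : σ.toFinset ⊆ t) : t = σ.toFinset := by
  rcases ht with rfl | ⟨τ, hτ, ht⟩
  · exact (Finset.subset_empty.1 hs).symm
  · have h1 : σ.toFinset = τ.toFinset :=
      Finset.eq_of_subset_of_card_le (hs.trans ht) (by rw [h.card hσ, h.card hτ])
    exact Finset.Subset.antisymm (h1 ▸ ht) hs

theorem cx_sub {d N B : ℕ} {K : List (List ℕ)} (h : Good d N B K) {σ : List ℕ}
    (hσ : σ ∈ K) {v : ℕ} (hv : B ≤ v) : cx (sub K σ v) = stellar (cx K) σ.toFinset v := by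
  have hσc : σ.toFinset ∈ cx K := Or.inr ⟨σ, hσ, Finset.Subset.refl _⟩
  have hne : σ.toFinset.Nonempty := by
    rw [← Finset.card_pos, h.card hσ]
    omega
  have hvs : v ∉ σ.toFinset := not_mem_cx h hv hσc
  ext t
  constructor
  · rintro (rfl | ⟨τ, hτ, ht⟩)
    · refine Or.inl ⟨Or.inl rfl, fun hs => ?_⟩
      rw [Finset.subset_empty.1 hs] at hne
      exact Finset.not_nonempty_empty hne
    · rw [sub, List.mem_append] at hτ
      rcases hτ with hτ | hτ
      · rw [mem_rem] at hτ
        refine Or.inl ⟨Or.inr ⟨τ, hτ.1, ht⟩, fun hs => hτ.2 ?_⟩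
        have h1 := facet_max h hσ (t := τ.toFinset) (Or.inr ⟨τ, hτ.1, Finset.Subset.refl _⟩)
          (hs.trans ht)
        exact h.inj hτ.1 hσ h1
      · rw [subd, List.mem_map] at hτ
        obtain ⟨u, hu, rfl⟩ := hτ
        rw [List.toFinset_cons, toFinset_rem] at ht
        by_cases hvt : v ∈ t
        · refine Or.inr ⟨t.erase v, ?_, ?_, (Finset.insert_erase hvt).symm⟩
          · have e : t.erase v ∪ σ.toFinset = σ.toFinset := by
              rw [Finset.union_eq_right]
              intro y hy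
              rw [Finset.mem_erase] at hy
              have := ht hy.2
              rw [Finset.mem_insert, Finset.mem_erase] at this
              rcases this with h1 | h1
              · exact absurd h1 hy.1
              · exact h1.2
            rw [e]
            exact hσc
          · intro hs
            have h1 := hs (by simpa using hu : u ∈ σ.toFinset)
            rw [Finset.mem_erase] at h1
            have h2 := ht h1.2
            rw [Finset.mem_insert, Finset.mem_erase] at h2
            rcases h2 with h2 | h2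
            · exact h1.1 h2
            · exact h2.1 rfl
        · have ht' : t ⊆ σ.toFinset.erase u := by
            intro y hy
            have := ht hy
            rw [Finset.mem_insert] at this
            rcases this with h1 | h1
            · exact absurd (h1 ▸ hy) hvt
            · exact h1
          refine Or.inl ⟨Or.inr ⟨σ, hσ, ht'.trans (Finset.erase_subset _ _)⟩, fun hs => ?_⟩
          have h1 := ht' (hs (by simpa using hu : u ∈ σ.toFinset))
          exact Finset.notMem_erase _ _ h1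
  · rintro (⟨ht, hs⟩ | ⟨t', ht', hs', rfl⟩)
    · rcases ht with rfl | ⟨τ, hτ, ht⟩
      · exact Or.inl rfl
      · by_cases e : τ = σ
        · subst e
          obtain ⟨u, hu, hut⟩ := Finset.not_subset.1 hs
          refine Or.inr ⟨v :: rem τ u, ?_, ?_⟩
          · rw [sub, List.mem_append, subd, List.mem_map]
            exact Or.inr ⟨u, by simpa using hu, rfl⟩
          · rw [List.toFinset_cons, toFinset_rem]
            intro y hy
            rw [Finset.mem_insert, Finset.mem_erase]
            exact Or.inr ⟨fun e => hut (e ▸ hy), ht hy⟩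
        · refine Or.inr ⟨τ, ?_, ht⟩
          rw [sub, List.mem_append, mem_rem]
          exact Or.inl ⟨hτ, e⟩
    · have h1 := facet_max h hσ ht' Finset.subset_union_right
      obtain ⟨u, hu, hut⟩ := Finset.not_subset.1 hs'
      refine Or.inr ⟨v :: rem σ u, ?_, ?_⟩
      · rw [sub, List.mem_append, subd, List.mem_map]
        exact Or.inr ⟨u, by simpa using hu, rfl⟩
      · rw [List.toFinset_cons, toFinset_rem]
        refine Finset.insert_subset_insert _ ?_
        intro y hy
        rw [Finset.mem_erase]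
        refine ⟨fun e => hut (e ▸ hy), ?_⟩
        rw [← h1]
        exact Finset.mem_union_left _ hy

theorem step_sub {d N B : ℕ} {K : List (List ℕ)} (h : Good d N B K) {σ : List ℕ}
    (hσ : σ ∈ K) {v : ℕ} (hv : B ≤ v) : Step (cx K) (cx (sub K σ v)) := by
  refine ⟨isComplex_cx _, isComplex_cx _, Or.inl ⟨σ.toFinset, Or.inr ⟨σ, hσ, Finset.Subset.refl _⟩,
    ?_, v, fun t ht => not_mem_cx h hv ht, cx_sub h hσ hv⟩⟩
  rw [← Finset.card_pos, h.card hσ]
  omega

end Pool.Agent.Q33.DF4
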